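import Pool.Agent.H574R3.CS.Stmts

/-! Task Odd2 of the project on cubic surfaces over finite fields. -/

set_option autoImplicit false

namespace Pool.Agent.H574R3.CS

open Polynomial

section aux
variable {K : Type} [Field K]

theorem odd2_indep_pair {y : Fin 4 → K} (hy : y 2 ≠ 0) :
    LinearIndependent K ![(e3 : Fin 4 → K), y] := by
  rw [LinearIndependent.pair_iff]
  intro s t h
  have h2 := congrFun h 2
  have h3 := congrFun h 3
  simp [e3, hy] at h2
  subst h2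
  simp [e3] at h3
  exact ⟨h3, rfl⟩

theorem odd2_indep_triple {w x1 x2 b c b' c' : K} (hd : b * c' - b' * c ≠ 0) :
    LinearIndependent K ![(![0, 0, 1, w] : Fin 4 → K), ![b, c, 0, x1], ![b', c', 0, x2]] := by
  rw [Fintype.linearIndependent_iff]
  intro g h
  rw [Fin.sum_univ_three] at h
  have h0 := congrFun h 0
  have h1 := congrFun h 1
  have h2 := congrFun h 2
  simp at h0 h1 h2
  have e1 : g 1 * (b * c' - b' * c) = 0 := by linear_combination c' * h0 - b' * h1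
  have e2 : g 2 * (b * c' - b' * c) = 0 := by linear_combination b * h1 - c * h0
  have e1' : g 1 = 0 := by
    rcases mul_eq_zero.1 e1 with h | h
    · exact h
    · exact absurd h hd
  have e2' : g 2 = 0 := by
    rcases mul_eq_zero.1 e2 with h | h
    · exact h
    · exact absurd h hd
  intro i
  fin_cases i
  · exact h2
  · exact e1'
  · exact e2'

end aux

theorem taskOdd2 : TaskOdd2 := by
  intro hS hU hV hZ hB K _ _ a n w h2 hn hq1 hq2 hq3 hm1 hm2 hm3 hA hk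
  obtain ⟨hF, hD⟩ := hn
  have cubK : ∀ x1 x2 x3 x4 : K, cub a (![x1, x2, x3, x4] : Fin 4 → K) =
      x4 ^ 2 * x3 + (n.a * x1 ^ 3 + n.b * (x1 ^ 2 * x2) + n.c * (x1 * x2 ^ 2) + n.d * x2 ^ 3) +
        x3 * (n.h1 * x1 ^ 2 + n.h2 * (x1 * x2) + n.h3 * x2 ^ 2) +
        x3 ^ 2 * (n.l1 * x1 + n.l2 * x2) + n.k * x3 ^ 3 := by
    intro x1 x2 x3 x4
    rw [hF K]
    simp only [NF.F, hq1, hq2, hq3, hm1, hm2, hm3, Algebra.algebraMap_self, RingHom.id_apply]
    simp
  have DK : ∀ x1 x2 x3 x4 y1 y2 y3 y4 : K,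
      D a (![x1, x2, x3, x4] : Fin 4 → K) ![y1, y2, y3, y4] =
      y1 * ((3 * n.a * x1 ^ 2 + 2 * n.b * (x1 * x2) + n.c * x2 ^ 2) +
        x3 * (2 * n.h1 * x1 + n.h2 * x2) + x3 ^ 2 * n.l1) +
      y2 * ((n.b * x1 ^ 2 + 2 * n.c * (x1 * x2) + 3 * n.d * x2 ^ 2) +
        x3 * (n.h2 * x1 + 2 * n.h3 * x2) + x3 ^ 2 * n.l2) +
      y3 * (x4 ^ 2 + (n.h1 * x1 ^ 2 + n.h2 * (x1 * x2) + n.h3 * x2 ^ 2) +
        2 * x3 * (n.l1 * x1 + n.l2 * x2) + 3 * n.k * x3 ^ 2) +
      y4 * (2 * x4 * x3) := by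
    intro x1 x2 x3 x4 y1 y2 y3 y4
    rw [hD K]
    simp only [NF.DF, hq1, hq2, hq3, hm1, hm2, hm3, Algebra.algebraMap_self, RingHom.id_apply]
    simp
  have he3 : cub a (e3 : Fin 4 → K) = 0 := by
    rw [e3, cubK]; ring
  by_cases hw : w = 0
  · -- the second point is singular on its own tangent line through `e3`
    have hk0 : n.k = 0 := by rw [hk, hw]; ring
    refine hS K a e3 ![0, 0, 1, 0] he3 ?_ ?_ (odd2_indep_pair (by simp))
    · rw [cubK, hk0]; ring
    · rw [e3, DK]; ring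
  · have h2w : (2 * w : K) ≠ 0 := mul_ne_zero h2 hw
    -- the vectors `e(b, c)`
    have key : ∀ b c b' c' : K, b * c' - b' * c ≠ 0 →
        n.h1 * b ^ 2 + n.h2 * (b * c) + n.h3 * c ^ 2 +
          ((n.l1 * b + n.l2 * c) / (2 * w)) ^ 2 ≠ 0 → Curve a e3 := by
      intro b c b' c' hd hQ
      have hbc : ¬ (b = 0 ∧ c = 0) := by
        rintro ⟨rfl, rfl⟩
        apply hd
        ring
      have hc3 : n.a * b ^ 3 + n.b * (b ^ 2 * c) + n.c * (b * c ^ 2) + n.d * c ^ 3 ≠ 0 :=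
        fun h => hbc (hA b c h)
      have hy : cub a (![0, 0, 1, w] : Fin 4 → K) = 0 := by
        rw [cubK, hk]; ring
      have hDy : ∀ b c : K, D a (![0, 0, 1, w] : Fin 4 → K)
          ![b, c, 0, -((n.l1 * b + n.l2 * c) / (2 * w))] = 0 := by
        intro b c
        rw [DK]
        field_simp
        ring
      have hDe : D a (![b, c, 0, -((n.l1 * b + n.l2 * c) / (2 * w))] : Fin 4 → K)
          ![0, 0, 1, w] = n.h1 * b ^ 2 + n.h2 * (b * c) + n.h3 * c ^ 2 +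
          ((n.l1 * b + n.l2 * c) / (2 * w)) ^ 2 := by
        rw [DK]
        ring
      have hce : cub a (![b, c, 0, -((n.l1 * b + n.l2 * c) / (2 * w))] : Fin 4 → K) =
          n.a * b ^ 3 + n.b * (b ^ 2 * c) + n.c * (b * c ^ 2) + n.d * c ^ 3 := by
        rw [cubK]
        ring
      obtain ⟨r, hr1, hr2, hr3⟩ := hV K a ![0, 0, 1, w]
        ![b, c, 0, -((n.l1 * b + n.l2 * c) / (2 * w))]
        ![b', c', 0, -((n.l1 * b' + n.l2 * c') / (2 * w))] hy (hDy b c) (hDy b' c')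
        (odd2_indep_triple hd) (by rw [hDe]; exact hQ)
      refine hU K a e3 r he3 hr1 ?_ hr3
      have h0 : (fun i => (r i).eval 0) = ![(r 0).eval 0, (r 1).eval 0, (r 2).eval 0,
          (r 3).eval 0] := by
        funext i
        fin_cases i <;> rfl
      rw [h0, e3, DK]
      have hz : (r 2).eval 0 =
          -(n.a * b ^ 3 + n.b * (b ^ 2 * c) + n.c * (b * c ^ 2) + n.d * c ^ 3) := by
        rw [hr2, hce]
        simp
      rw [hz]
      intro h
      apply hc3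
      linear_combination -h
    by_cases hQ1 : n.h1 * (1:K) ^ 2 + n.h2 * (1 * 0) + n.h3 * 0 ^ 2 +
          ((n.l1 * 1 + n.l2 * 0) / (2 * w)) ^ 2 ≠ 0
    · exact key 1 0 0 1 (by simp) hQ1
    by_cases hQ2 : n.h1 * (0:K) ^ 2 + n.h2 * (0 * 1) + n.h3 * 1 ^ 2 +
          ((n.l1 * 0 + n.l2 * 1) / (2 * w)) ^ 2 ≠ 0
    · exact key 0 1 1 0 (by simp) hQ2
    by_cases hQ3 : n.h1 * (1:K) ^ 2 + n.h2 * (1 * 1) + n.h3 * 1 ^ 2 +
          ((n.l1 * 1 + n.l2 * 1) / (2 * w)) ^ 2 ≠ 0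
    · exact key 1 1 0 1 (by simp) hQ3
    push Not at hQ1 hQ2 hQ3
    have hk0 : n.k ≠ 0 := by
      rw [hk]
      exact neg_ne_zero.2 (pow_ne_zero 2 hw)
    have hh1 : n.h1 = n.l1 ^ 2 / (4 * n.k) := by
      rw [hk]
      have h4 : (4 : K) ≠ 0 := by
        have : (4 : K) = 2 * 2 := by norm_num
        rw [this]; exact mul_ne_zero h2 h2
      field_simp at hQ1 ⊢
      linear_combination hQ1
    have hh3 : n.h3 = n.l2 ^ 2 / (4 * n.k) := by
      rw [hk]
      have h4 : (4 : K) ≠ 0 := by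
        have : (4 : K) = 2 * 2 := by norm_num
        rw [this]; exact mul_ne_zero h2 h2
      field_simp at hQ2 ⊢
      linear_combination hQ2
    have hh2 : n.h2 = 2 * (n.l1 * n.l2) / (4 * n.k) := by
      rw [hk]
      have h4 : (4 : K) ≠ 0 := by
        have : (4 : K) = 2 * 2 := by norm_num
        rw [this]; exact mul_ne_zero h2 h2
      field_simp at hQ1 hQ2 hQ3 ⊢
      linear_combination hQ3 - hQ1 - hQ2
    obtain ⟨X, Y, Z, hZ0, hXYZ⟩ := hZ hB K n.a n.b n.c n.d n.k (n.l1 / (2 * n.k))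
      (n.l2 / (2 * n.k)) hk0 hA
    refine hS K a e3 ![X, Y, Z, 0] he3 ?_ ?_ (odd2_indep_pair (by simpa using hZ0))
    · rw [cubK]
      refine Eq.trans ?_ hXYZ
      rw [hh1, hh2, hh3]
      have h4 : (4 : K) ≠ 0 := by
        have : (4 : K) = 2 * 2 := by norm_num
        rw [this]; exact mul_ne_zero h2 h2
      field_simp
      ring
    · rw [e3, DK]; ring

end Pool.Agent.H574R3.CS
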