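import Pool.Agent.H256R3.Sys

/-! Divergence of averages along a sparse-block point. -/

set_option autoImplicit false

open Filter Topology Set

namespace Pool.Agent.H256R3.OM

/-- the observable: is the current term zero? -/
noncomputable def obs (k : ℕ) : C(sysSet k, ℂ) where
  toFun y := if y.1 0 = 0 then 1 else 0
  continuous_toFun := by
    have h : Continuous fun a : ZMod k => (if a = 0 then 1 else 0 : ℂ) := continuous_of_discreteTopology
    exact h.comp (continuous_coord 0)

/-- pairs in the box -/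
def box (N : ℕ) : Finset (ℕ × ℕ) := Finset.Icc 1 N ×ˢ Finset.Icc 1 N

lemma card_box (N : ℕ) : (box N).card = N ^ 2 := by
  simp [box, sq]

lemma exists_times (g : ℕ → ℕ → ℕ)
    (H : ∀ K : ℕ, ∀ᶠ N : ℕ in atTop, 4 * ((box N).filter fun p => g p.1 p.2 ≤ K).card ≤ N ^ 2) :
    ∃ t N : ℕ → ℕ, ∀ m, 2 * t m < t (m + 1) ∧ m < N m ∧
      4 * ((box (N m)).filter fun p => g p.1 p.2 ≤ t m).card ≤ (N m) ^ 2 ∧
      ∀ p ∈ box (N m), g p.1 p.2 < t (m + 1) := by
  have step : ∀ m K : ℕ, ∃ q : ℕ × ℕ, 2 * K < q.1 ∧ m < q.2 ∧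
      4 * ((box q.2).filter fun p => g p.1 p.2 ≤ K).card ≤ q.2 ^ 2 ∧
      ∀ p ∈ box q.2, g p.1 p.2 < q.1 := by
    intro m K
    obtain ⟨N, hN, hmN⟩ := ((H K).and (eventually_gt_atTop m)).exists
    refine ⟨(2 * K + 1 + (box N).sup (fun p => g p.1 p.2 + 1), N), ?_, hmN, hN, ?_⟩
    · show 2 * K < 2 * K + 1 + _
      omega
    · intro p hp
      have h1 : g p.1 p.2 + 1 ≤ (box N).sup (fun p => g p.1 p.2 + 1) :=
        Finset.le_sup (f := fun p : ℕ × ℕ => g p.1 p.2 + 1) hp
      show g p.1 p.2 < 2 * K + 1 + (box N).sup (fun p => g p.1 p.2 + 1)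
      omega
  choose f hf using step
  let t : ℕ → ℕ := fun m => Nat.rec 0 (fun m K => (f m K).1) m
  refine ⟨t, fun m => (f m (t m)).2, fun m => ?_⟩
  have := hf m (t m)
  exact this

section

variable (t : ℕ → ℕ)

open Classical in
/-- number of switching times before `i` -/
noncomputable def cnt (i : ℕ) : ℕ := Nat.count (fun j => j ∈ range t) i

lemma strictMono_of (ht : ∀ m, 2 * t m < t (m + 1)) : StrictMono t :=
  strictMono_nat_of_lt_succ fun m => by have := ht m; omega

lemma cnt_succ_of_notMem {i : ℕ} (hi : i ∉ range t) : cnt t (i + 1) = cnt t i := by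
  classical
  unfold cnt
  rw [Nat.count_succ, if_neg hi, add_zero]

lemma cnt_block (ht : ∀ m, 2 * t m < t (m + 1)) {m i : ℕ} (h1 : t m < i) (h2 : i ≤ t (m + 1)) :
    cnt t i = m + 1 := by
  classical
  have hmono := strictMono_of t ht
  unfold cnt
  rw [Nat.count_eq_card_filter_range]
  have : (Finset.range i).filter (fun j => j ∈ range t) = (Finset.range (m + 1)).image t := by
    ext j
    simp only [Finset.mem_filter, Finset.mem_range, Set.mem_range, Finset.mem_image]
    constructor
    · rintro ⟨hj, ⟨a, rfl⟩⟩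
      refine ⟨a, ?_, rfl⟩
      by_contra hcon
      have : t (m + 1) ≤ t a := hmono.monotone (by omega)
      omega
    · rintro ⟨a, ha, rfl⟩
      refine ⟨?_, a, rfl⟩
      have : t a ≤ t m := hmono.monotone (by omega)
      omega
  rw [this, Finset.card_image_of_injective _ hmono.injective, Finset.card_range]

variable (k c : ℕ)

open Classical in
/-- the phase -/
noncomputable def ph (i : ℕ) : ZMod k := if Even (cnt t i) then 0 else 1

/-- the point -/
noncomputable def pt (ht : ∀ m, 2 * t m < t (m + 1)) : sysSet k :=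
  ⟨fun i => (i : ZMod k) - (c : ZMod k) + ph t k i, by
    intro i j hij hji
    have hmono := strictMono_of t ht
    have key : ∀ l : ℕ, l ∉ range t →
        ((l + 1 : ℕ) : ZMod k) - (c : ZMod k) + ph t k (l + 1) =
          (l : ZMod k) - (c : ZMod k) + ph t k l + 1 := by
      intro l hl
      unfold ph
      rw [cnt_succ_of_notMem t hl]
      push_cast
      ring
    by_cases hi : i ∈ range t
    · by_cases hj : j ∈ range t
      · exfalso
        obtain ⟨a, rfl⟩ := hi
        obtain ⟨b, rfl⟩ := hj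
        have hab : a < b := hmono.lt_iff_lt.mp hij
        have h1 : t (a + 1) ≤ t b := hmono.monotone hab
        have h2 := ht a
        omega
      · exact Or.inr (key j hj)
    · exact Or.inl (key i hi)⟩

lemma pt_apply (ht : ∀ m, 2 * t m < t (m + 1)) (w : ℕ) :
    (pt t k c ht).1 (c + k * w) = ph t k (c + k * w) := by
  show (((c + k * w : ℕ)) : ZMod k) - (c : ZMod k) + ph t k (c + k * w) = _
  push_cast
  rw [ZMod.natCast_self]
  ring

open Classical in
lemma obs_pt (hk : 2 ≤ k) (ht : ∀ m, 2 * t m < t (m + 1)) (w : ℕ) :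
    obs k ((shift^[c + k * w]) (pt t k c ht)) = if Even (cnt t (c + k * w)) then 1 else 0 := by
  haveI : Fact (1 < k) := ⟨by omega⟩
  show (if ((shift^[c + k * w]) (pt t k c ht)).1 0 = 0 then (1 : ℂ) else 0) = _
  rw [shift_iterate, Nat.zero_add, pt_apply]
  unfold ph
  by_cases h : Even (cnt t (c + k * w))
  · simp [h]
  · simp [h]

end

/-- the main divergence statement -/
theorem diverge (k c : ℕ) (hk : 2 ≤ k) (w : ℕ → ℕ → ℕ)
    (H : ∀ K : ℕ, ∀ᶠ N : ℕ in atTop, 4 * ((box N).filter fun p => w p.1 p.2 ≤ K).card ≤ N ^ 2) :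
    ∃ x : sysSet k, ¬ ∃ L : ℂ, Tendsto (fun N : ℕ => (1 / (N : ℂ) ^ 2) *
      ∑ m ∈ Finset.Icc 1 N, ∑ n ∈ Finset.Icc 1 N, obs k ((shift^[c + k * w m n]) x))
      atTop (𝓝 L) := by
  classical
  have H' : ∀ K : ℕ, ∀ᶠ N : ℕ in atTop,
      4 * ((box N).filter fun p => c + k * w p.1 p.2 ≤ K).card ≤ N ^ 2 := by
    intro K
    filter_upwards [H K] with N hN
    refine le_trans (Nat.mul_le_mul_left 4 (Finset.card_le_card ?_)) hN
    intro p hp
    rw [Finset.mem_filter] at hp ⊢
    refine ⟨hp.1, ?_⟩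
    have h1 : w p.1 p.2 ≤ k * w p.1 p.2 := Nat.le_mul_of_pos_left _ (by omega)
    have := hp.2
    omega
  obtain ⟨t, N, htN⟩ := exists_times (fun a b => c + k * w a b) H'
  have ht : ∀ m, 2 * t m < t (m + 1) := fun m => (htN m).1
  refine ⟨pt t k c ht, ?_⟩
  rintro ⟨L, hL⟩
  -- rewrite the averages
  set a : ℕ → ℝ := fun M => (((box M).filter fun p => Even (cnt t (c + k * w p.1 p.2))).card : ℝ) /
    (M : ℝ) ^ 2 with ha
  have hA : ∀ M : ℕ, (1 / (M : ℂ) ^ 2) *
      ∑ m ∈ Finset.Icc 1 M, ∑ n ∈ Finset.Icc 1 M,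
        obs k ((shift^[c + k * w m n]) (pt t k c ht)) = ((a M : ℝ) : ℂ) := by
    intro M
    have h1 : ∑ m ∈ Finset.Icc 1 M, ∑ n ∈ Finset.Icc 1 M,
        obs k ((shift^[c + k * w m n]) (pt t k c ht)) =
        ∑ p ∈ box M, if Even (cnt t (c + k * w p.1 p.2)) then (1 : ℂ) else 0 := by
      rw [box, Finset.sum_product]
      refine Finset.sum_congr rfl fun m _ => Finset.sum_congr rfl fun n _ => ?_
      exact obs_pt t k c hk ht (w m n)
    rw [h1, Finset.sum_boole, ha]
    push_cast
    ring
  have hlim : Tendsto a atTop (𝓝 L.re) := by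
    have h1 : Tendsto (fun M : ℕ => ((a M : ℝ) : ℂ)) atTop (𝓝 L) := by
      refine hL.congr fun M => hA M
    have h2 := (Complex.continuous_re.tendsto L).comp h1
    refine h2.congr fun M => ?_
    simp
  have hNlim : Tendsto N atTop atTop := by
    refine tendsto_atTop_mono (fun m => (htN m).2.1.le) tendsto_id
  have hsub := hlim.comp hNlim
  -- values along the subsequence
  have hval : ∀ m, (Even (m + 1) → 3 / 4 ≤ a (N m)) ∧ (¬ Even (m + 1) → a (N m) ≤ 1 / 4) := by
    intro m
    obtain ⟨h1, h2, h3, h4⟩ := htN m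
    have hNpos : (0 : ℝ) < (N m : ℝ) ^ 2 := by
      have : 0 < N m := by omega
      positivity
    have hgood : ∀ p ∈ box (N m), ¬ (c + k * w p.1 p.2 ≤ t m) →
        cnt t (c + k * w p.1 p.2) = m + 1 := by
      intro p hp hne
      exact cnt_block t ht (by omega) (h4 p hp).le
    have h3' : (4 : ℝ) * (((box (N m)).filter fun p => c + k * w p.1 p.2 ≤ t m).card : ℝ) ≤
        (N m : ℝ) ^ 2 := by exact_mod_cast h3
    constructor
    · intro he
      have hsubset : (box (N m)) ⊆ ((box (N m)).filter fun p => c + k * w p.1 p.2 ≤ t m) ∪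
          ((box (N m)).filter fun p => Even (cnt t (c + k * w p.1 p.2))) := by
        intro p hp
        rw [Finset.mem_union, Finset.mem_filter, Finset.mem_filter]
        by_cases h : c + k * w p.1 p.2 ≤ t m
        · exact Or.inl ⟨hp, h⟩
        · refine Or.inr ⟨hp, ?_⟩
          rw [hgood p hp h]
          exact he
      have hc := (Finset.card_le_card hsubset).trans (Finset.card_union_le _ _)
      rw [card_box] at hc
      have hc' : ((N m : ℝ)) ^ 2 ≤
          (((box (N m)).filter fun p => c + k * w p.1 p.2 ≤ t m).card : ℝ) +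
          (((box (N m)).filter fun p => Even (cnt t (c + k * w p.1 p.2))).card : ℝ) := by
        exact_mod_cast hc
      rw [ha]
      show 3 / 4 ≤ _ / _
      rw [le_div_iff₀ hNpos]
      linarith
    · intro he
      have hsubset : ((box (N m)).filter fun p => Even (cnt t (c + k * w p.1 p.2))) ⊆
          ((box (N m)).filter fun p => c + k * w p.1 p.2 ≤ t m) := by
        intro p hp
        rw [Finset.mem_filter] at hp ⊢
        refine ⟨hp.1, ?_⟩
        by_contra h
        rw [hgood p hp.1 h] at hp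
        exact he hp.2
      have hc := Finset.card_le_card hsubset
      have hc' : (((box (N m)).filter fun p => Even (cnt t (c + k * w p.1 p.2))).card : ℝ) ≤
          (((box (N m)).filter fun p => c + k * w p.1 p.2 ≤ t m).card : ℝ) := by
        exact_mod_cast hc
      rw [ha]
      show _ / _ ≤ 1 / 4
      rw [div_le_iff₀ hNpos]
      linarith
  have hodd : Tendsto (fun j : ℕ => a (N (2 * j + 1))) atTop (𝓝 L.re) :=
    hsub.comp (tendsto_atTop_mono (fun j => by show j ≤ 2 * j + 1; omega) tendsto_id)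
  have heven : Tendsto (fun j : ℕ => a (N (2 * j))) atTop (𝓝 L.re) :=
    hsub.comp (tendsto_atTop_mono (fun j => by show j ≤ 2 * j; omega) tendsto_id)
  have i1 : 3 / 4 ≤ L.re := ge_of_tendsto' hodd fun j => (hval (2 * j + 1)).1 ⟨j + 1, by ring⟩
  have i2 : L.re ≤ 1 / 4 := le_of_tendsto' heven fun j => (hval (2 * j)).2 (by
    rw [Nat.even_add_one, not_not]
    exact even_two_mul j)
  linarith

end Pool.Agent.H256R3.OM
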