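import Pool.Agent.H256R3.NT

/-! The system as a metric space, with the divergence statement. -/

set_option autoImplicit false

open Filter Topology Set MeasureTheory

namespace Pool.Agent.H256R3.OM

open ArithmeticFunction

theorem example_system (k : ℕ) (hk : 2 ≤ k) :
    ∃ (X : Type) (_ : MetricSpace X) (_ : CompactSpace X) (_ : MeasurableSpace X) (_ : BorelSpace X)
      (T : X → X) (F : C(X, ℂ)), Continuous T ∧
      (∃! μ : Measure X, IsProbabilityMeasure μ ∧ MeasurePreserving T μ μ) ∧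
      ∀ (c : ℕ) (w : ℕ → ℕ → ℕ),
        (∀ K : ℕ, ∀ᶠ N : ℕ in atTop, 4 * ((box N).filter fun p => w p.1 p.2 ≤ K).card ≤ N ^ 2) →
        ∃ x : X, ¬ ∃ L : ℂ, Tendsto (fun N : ℕ => (1 / (N : ℂ) ^ 2) *
          ∑ m ∈ Finset.Icc 1 N, ∑ n ∈ Finset.Icc 1 N, F ((T^[c + k * w m n]) x)) atTop (𝓝 L) := by
  have : NeZero k := ⟨by omega⟩
  letI M : MetricSpace (sysSet k) := TopologicalSpace.metrizableSpaceMetric (sysSet k)
  letI Me : MeasurableSpace (sysSet k) := borel (sysSet k)
  have hB : BorelSpace (sysSet k) := ⟨rfl⟩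
  refine ⟨sysSet k, M, inferInstance, Me, hB, shift, obs k, continuous_shift,
    existsUnique_measure, fun c w hw => ?_⟩
  exact diverge k c hk w hw

end Pool.Agent.H256R3.OM
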