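import Pool.Agent.H256R3.Sieve

/-! Number theoretic input: the primes `1` modulo `4` have divergent reciprocal sum, and the
resulting estimate for the forms `x ^ 2 + y ^ 2` and `x`. -/

set_option autoImplicit false

open Filter Topology Set

namespace Pool.Agent.H256R3.OM

open ArithmeticFunction ArithmeticFunction.vonMangoldt

/-- The reciprocals of the primes congruent to `1` modulo `4` are not summable. -/
theorem not_summable_primes_one_mod_four :
    ¬ Summable (fun n : ℕ => if n.Prime ∧ ((n : ZMod 4) = 1) then (1 : ℝ) / n else 0) := by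
  intro H
  have hunit : IsUnit (1 : ZMod 4) := by decide
  obtain ⟨C, hC⟩ := LSeries_residueClass_lower_bound (q := 4) (a := 1) hunit
  have hS2 := summable_residueClass_non_primes_div (q := 4) (1 : ZMod 4)
  set bound : ℕ → ℝ := fun n =>
    (if n.Prime ∧ ((n : ZMod 4) = 1) then (1 : ℝ) / n else 0) +
      (if n.Prime then 0 else residueClass (1 : ZMod 4) n) / n with hbound
  have hsum : Summable bound := H.add hS2
  -- the functions
  set x : ℕ → ℝ := fun j => 1 + 1 / ((j : ℝ) + 1) with hx
  have hx1 : ∀ j, 1 < x j := by intro j; simp only [hx]; have : (0:ℝ) < 1 / ((j:ℝ)+1) := by positivity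
                                linarith
  have hx2 : ∀ j, x j ≤ 2 := by
    intro j; simp only [hx]
    have : 1 / ((j:ℝ)+1) ≤ 1 := by
      rw [div_le_one (by positivity)]; have := Nat.cast_nonneg (α := ℝ) j; linarith
    linarith
  have hxlim : Tendsto (fun j => x j - 1) atTop (𝓝 0) := by
    have := tendsto_one_div_add_atTop_nhds_zero_nat (𝕜 := ℝ)
    simpa [hx] using this
  let f : ℕ → ℕ → ℝ := fun j n => (x j - 1) * (residueClass (1 : ZMod 4) n / (n : ℝ) ^ (x j))
  have hf_bound : ∀ j n, ‖f j n‖ ≤ bound n := by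
    intro j n
    have hpos : 0 < x j - 1 := by linarith [hx1 j]
    have hnn : 0 ≤ residueClass (1 : ZMod 4) n := residueClass_nonneg _ n
    have hn0 : 0 ≤ (n:ℝ) ^ (x j) := Real.rpow_nonneg (Nat.cast_nonneg n) _
    have hfn : 0 ≤ f j n := mul_nonneg hpos.le (div_nonneg hnn hn0)
    rw [Real.norm_of_nonneg hfn]
    rcases Nat.eq_zero_or_pos n with rfl | hn
    · simp [f, hbound]
    have hnR : (0:ℝ) < n := by exact_mod_cast hn
    have hn1 : (1:ℝ) ≤ n := by exact_mod_cast hn
    by_cases hp : n.Prime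
    · by_cases h3 : (n : ZMod 4) = 1
      · have hrc : residueClass (1 : ZMod 4) n = Real.log n := by
          simp [residueClass, Set.indicator, h3, vonMangoldt_apply_prime hp]
        have hb : bound n = 1 / n := by simp [hbound, hp, h3]
        rw [hb]
        simp only [f, hrc]
        have e1 : (n:ℝ) ^ (x j) = n * (n:ℝ) ^ (x j - 1) := by
          rw [← Real.rpow_one_add' hnR.le (by linarith)]; congr 1; ring
        rw [e1]
        have hlogn : 0 ≤ Real.log n := Real.log_nonneg hn1
        have e2 : (x j - 1) * Real.log n ≤ (n:ℝ) ^ (x j - 1) := by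
          rw [Real.rpow_def_of_pos hnR]
          have := Real.add_one_le_exp (Real.log n * (x j - 1))
          nlinarith
        have hpos2 : 0 < (n:ℝ) ^ (x j - 1) := Real.rpow_pos_of_pos hnR _
        rw [← mul_div_assoc, div_le_div_iff₀ (by positivity) hnR]
        nlinarith
      · have hrc : residueClass (1 : ZMod 4) n = 0 := by
          simp [residueClass, Set.indicator, h3]
        simp only [f, hrc]
        simp [hbound, hp, h3]
    · have hb : bound n = residueClass (1 : ZMod 4) n / n := by simp [hbound, hp]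
      rw [hb]
      simp only [f]
      have e1 : (n:ℝ) ≤ (n:ℝ) ^ (x j) := by
        conv_lhs => rw [← Real.rpow_one (n:ℝ)]
        exact Real.rpow_le_rpow_of_exponent_le hn1 (hx1 j).le
      have e2 : residueClass (1 : ZMod 4) n / (n : ℝ) ^ (x j) ≤ residueClass (1 : ZMod 4) n / n :=
        div_le_div_of_nonneg_left hnn hnR e1
      have e3 : x j - 1 ≤ 1 := by linarith [hx2 j]
      have e4 : 0 ≤ residueClass (1 : ZMod 4) n / (n : ℝ) ^ (x j) := div_nonneg hnn hn0
      nlinarith
  have hf_lim : ∀ n, Tendsto (fun j => f j n) atTop (𝓝 0) := by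
    intro n
    have hnn : 0 ≤ residueClass (1 : ZMod 4) n := residueClass_nonneg _ n
    rcases Nat.eq_zero_or_pos n with rfl | hn
    · simp [f]
    have hnR : (0:ℝ) < n := by exact_mod_cast hn
    have hn1 : (1:ℝ) ≤ n := by exact_mod_cast hn
    have up : ∀ j, f j n ≤ (x j - 1) * (residueClass (1 : ZMod 4) n / n) := by
      intro j
      have hpos : 0 < x j - 1 := by linarith [hx1 j]
      have e1 : (n:ℝ) ≤ (n:ℝ) ^ (x j) := by
        conv_lhs => rw [← Real.rpow_one (n:ℝ)]
        exact Real.rpow_le_rpow_of_exponent_le hn1 (hx1 j).le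
      exact mul_le_mul_of_nonneg_left (div_le_div_of_nonneg_left hnn hnR e1) hpos.le
    have lo : ∀ j, 0 ≤ f j n := by
      intro j
      have hpos : 0 < x j - 1 := by linarith [hx1 j]
      exact mul_nonneg hpos.le (div_nonneg hnn (Real.rpow_nonneg (Nat.cast_nonneg n) _))
    have l2 : Tendsto (fun j => (x j - 1) * (residueClass (1 : ZMod 4) n / n)) atTop (𝓝 0) := by
      have := hxlim.mul_const (residueClass (1 : ZMod 4) n / n)
      simpa using this
    exact squeeze_zero lo up l2
  have hT := tendsto_tsum_of_dominated_convergence (f := f) (g := fun _ => (0:ℝ)) hsum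
    hf_lim (Filter.Eventually.of_forall hf_bound)
  simp only [tsum_zero] at hT
  have hlow : ∀ j, (1/2 : ℝ) - C * (x j - 1) ≤ ∑' n, f j n := by
    intro j
    have hpos : 0 < x j - 1 := by linarith [hx1 j]
    have h1 := hC (x := x j) ⟨hx1 j, hx2 j⟩
    have ht : ((Nat.totient 4 : ℕ) : ℝ)⁻¹ = 1/2 := by
      have : Nat.totient 4 = 2 := by decide
      rw [this]; norm_num
    rw [ht] at h1
    have h2 : ∑' n, f j n = (x j - 1) * ∑' n, residueClass (1 : ZMod 4) n / (n : ℝ) ^ (x j) := by
      rw [← tsum_mul_left]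
    rw [h2]
    have h3 := mul_le_mul_of_nonneg_left h1 hpos.le
    have h4 : (x j - 1) * (1 / 2 / (x j - 1) - C) = 1/2 - C * (x j - 1) := by
      field_simp
    linarith [h4 ▸ h3]
  have hl2 : Tendsto (fun j => (1/2 : ℝ) - C * (x j - 1)) atTop (𝓝 (1/2)) := by
    have := (hxlim.const_mul C).const_sub (1/2 : ℝ)
    simpa using this
  have := le_of_tendsto_of_tendsto' hl2 hT hlow
  norm_num at this


/-- The set of primes `1` modulo `4`. -/
def P14 : Set ℕ := {n | n.Prime ∧ ((n : ZMod 4) = 1)}

theorem not_summable_P14 : ¬ Summable (P14.indicator fun n : ℕ => 1 / (n : ℝ)) := by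
  refine fun h => not_summable_primes_one_mod_four (h.congr fun n => ?_)
  simp only [P14, Set.indicator, Set.mem_setOf_eq]

lemma root_P14 : ∀ p ∈ P14, ∃ r : ℕ, ∀ u v : ℕ, u ≡ r * v [MOD p] → p ∣ u ^ 2 + v ^ 2 := by
  rintro p ⟨hp, h1⟩
  haveI : Fact p.Prime := ⟨hp⟩
  have hne : p % 4 ≠ 3 := by
    have h2 : (p : ZMod 4) = ((1 : ℕ) : ZMod 4) := by simpa using h1
    have h3 := (ZMod.natCast_eq_natCast_iff _ _ _).mp h2
    unfold Nat.ModEq at h3
    omega
  obtain ⟨s, hs⟩ := (ZMod.exists_sq_eq_neg_one_iff (p := p)).mpr hne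
  refine ⟨s.val, fun u v huv => ?_⟩
  rw [← ZMod.natCast_eq_zero_iff]
  have h4 : (u : ZMod p) = s * v := by
    have := (ZMod.natCast_eq_natCast_iff _ _ _).mpr huv
    rw [this]; push_cast; rw [ZMod.natCast_zmod_val]
  push_cast
  rw [h4]
  linear_combination (-(v : ZMod p) ^ 2) * hs

theorem sparse_sq (K : ℕ) : ∀ᶠ N : ℕ in atTop,
    4 * ((box N).filter fun p => cardFactors (p.1 ^ 2 + p.2 ^ 2) ≤ K).card ≤ N ^ 2 :=
  sparse (fun u v => u ^ 2 + v ^ 2) (fun u v hu hv => by positivity) P14 (fun p hp => hp.1)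
    not_summable_P14 root_P14 K

end Pool.Agent.H256R3.OM
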