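import Pool.Agent.H256R3.Div

/-! If the primes `p` for which a congruence `u ≡ r v (mod p)` forces `p ∣ q (u, v)` have divergent
reciprocal sum, then `q (u, v)` has many prime factors for almost all `(u, v)`. -/

set_option autoImplicit false

open Filter Topology Set

namespace Pool.Agent.H256R3.OM

open ArithmeticFunction

/-- count over a full period -/
lemma count_period (A : Finset ℕ) (hA : ∀ p ∈ A, p.Prime) (a : ℕ → ℕ) :
    ((Finset.range (∏ p ∈ A, p)).filter fun u => ∀ p ∈ A, ¬ (u ≡ a p [MOD p])).card =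
      ∏ p ∈ A, (p - 1) := by
  classical
  have hne : ∀ i : A, NeZero (i : ℕ) := fun i => ⟨(hA i i.2).ne_zero⟩
  have hM : (∏ i : A, (i : ℕ)) = ∏ p ∈ A, p := Finset.prod_coe_sort A (fun p => p)
  have hMpos : 0 < ∏ p ∈ A, p := Finset.prod_pos fun p hp => (hA p hp).pos
  have hcop : Pairwise (Function.onFun Nat.Coprime (fun i : A => (i : ℕ))) := by
    intro i j hij
    exact (Nat.coprime_primes (hA i i.2) (hA j j.2)).mpr fun h => hij (Subtype.ext h)
  let e := ZMod.prodEquivPi (fun i : A => (i : ℕ)) hcop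
  haveI : NeZero (∏ i : A, (i : ℕ)) := ⟨by rw [hM]; exact hMpos.ne'⟩
  have h1 : ((Finset.range (∏ p ∈ A, p)).filter fun u => ∀ p ∈ A, ¬ (u ≡ a p [MOD p])).card =
      ((Finset.univ : Finset (ZMod (∏ i : A, (i : ℕ)))).filter
        fun z => ∀ i : A, e z i ≠ (a i : ZMod (i : ℕ))).card := by
    refine Finset.card_bij (fun u _ => (u : ZMod (∏ i : A, (i : ℕ)))) ?_ ?_ ?_
    · intro u hu
      rw [Finset.mem_filter] at hu ⊢
      refine ⟨Finset.mem_univ _, fun i => ?_⟩
      rw [map_natCast e u, Pi.natCast_apply]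
      intro hcon
      exact hu.2 i i.2 ((ZMod.natCast_eq_natCast_iff _ _ _).mp hcon)
    · intro u hu v hv huv
      rw [Finset.mem_filter, Finset.mem_range] at hu hv
      have h := (ZMod.natCast_eq_natCast_iff _ _ _).mp huv
      rw [hM] at h
      exact Nat.ModEq.eq_of_lt_of_lt h hu.1 hv.1
    · intro z hz
      rw [Finset.mem_filter] at hz
      refine ⟨z.val, ?_, ZMod.natCast_zmod_val z⟩
      rw [Finset.mem_filter, Finset.mem_range]
      refine ⟨by rw [← hM]; exact ZMod.val_lt z, fun p hp hcon => ?_⟩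
      apply hz.2 ⟨p, hp⟩
      rw [← ZMod.natCast_zmod_val z, map_natCast e, Pi.natCast_apply]
      exact (ZMod.natCast_eq_natCast_iff _ _ _).mpr hcon
  rw [h1]
  have h2 : ((Finset.univ : Finset (ZMod (∏ i : A, (i : ℕ)))).filter
        fun z => ∀ i : A, e z i ≠ (a i : ZMod (i : ℕ))).card =
      (Fintype.piFinset fun i : A => (Finset.univ : Finset (ZMod (i : ℕ))).erase
        (a i : ZMod (i : ℕ))).card := by
    refine Finset.card_bij (fun z _ => e z) ?_ ?_ ?_
    · intro z hz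
      rw [Finset.mem_filter] at hz
      rw [Fintype.mem_piFinset]
      exact fun i => Finset.mem_erase.mpr ⟨hz.2 i, Finset.mem_univ _⟩
    · intro z _ z' _ h
      exact e.injective h
    · intro f hf
      rw [Fintype.mem_piFinset] at hf
      refine ⟨e.symm f, ?_, e.apply_symm_apply f⟩
      rw [Finset.mem_filter]
      refine ⟨Finset.mem_univ _, fun i => ?_⟩
      rw [e.apply_symm_apply]
      exact (Finset.mem_erase.mp (hf i)).1
  rw [h2, Fintype.card_piFinset]
  have h3 : ∀ i : A, ((Finset.univ : Finset (ZMod (i : ℕ))).erase (a i : ZMod (i : ℕ))).card =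
      (i : ℕ) - 1 := by
    intro i
    rw [Finset.card_erase_of_mem (Finset.mem_univ _), Finset.card_univ, ZMod.card]
  rw [Finset.prod_congr rfl fun i _ => h3 i]
  exact Finset.prod_coe_sort A (fun p => p - 1)

/-- count over a range -/
lemma count_le (A : Finset ℕ) (hA : ∀ p ∈ A, p.Prime) (a : ℕ → ℕ) (N : ℕ) :
    ((Finset.Icc 1 N).filter fun u => ∀ p ∈ A, ¬ (u ≡ a p [MOD p])).card ≤
      (N / (∏ p ∈ A, p) + 1) * ∏ p ∈ A, (p - 1) := by
  classical
  set M := ∏ p ∈ A, p with hM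
  have hMpos : 0 < M := Finset.prod_pos fun p hp => (hA p hp).pos
  have hper : Function.Periodic (fun u : ℕ => ∀ p ∈ A, ¬ (u ≡ a p [MOD p])) M := by
    intro u
    apply propext
    have key : ∀ p ∈ A, (u + M ≡ a p [MOD p] ↔ u ≡ a p [MOD p]) := by
      intro p hp
      have hd : p ∣ M := Finset.dvd_prod_of_mem _ hp
      have h0 : u + M ≡ u [MOD p] := by
        have h00 : M ≡ 0 [MOD p] := (Nat.modEq_zero_iff_dvd).mpr hd
        simpa using (Nat.ModEq.refl u).add h00
      exact ⟨fun h => h0.symm.trans h, fun h => h0.trans h⟩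
    constructor
    · intro h p hp h2
      exact h p hp ((key p hp).mpr h2)
    · intro h p hp h2
      exact h p hp ((key p hp).mp h2)
  have hwin : ∀ n, ((Finset.Ico n (n + M)).filter fun u => ∀ p ∈ A, ¬ (u ≡ a p [MOD p])).card =
      ∏ p ∈ A, (p - 1) := by
    intro n
    rw [Nat.filter_Ico_card_eq_of_periodic n M _ hper, Nat.count_eq_card_filter_range,
      count_period A hA a]
  have hq : ∀ q, ((Finset.Ico 1 (1 + q * M)).filter fun u => ∀ p ∈ A, ¬ (u ≡ a p [MOD p])).card =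
      q * ∏ p ∈ A, (p - 1) := by
    intro q
    induction q with
    | zero => simp
    | succ q ih =>
      have hsplit : Finset.Ico 1 (1 + (q + 1) * M) =
          Finset.Ico 1 (1 + q * M) ∪ Finset.Ico (1 + q * M) (1 + q * M + M) := by
        rw [Finset.Ico_union_Ico_eq_Ico (by omega) (by omega)]
        congr 1
        ring
      rw [hsplit, Finset.filter_union, Finset.card_union_of_disjoint, ih, hwin]
      · ring
      · refine Finset.disjoint_filter_filter ?_
        exact Finset.Ico_disjoint_Ico_consecutive _ _ _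
  rw [← hq (N / M + 1)]
  refine Finset.card_le_card (Finset.filter_subset_filter _ ?_)
  intro u hu
  rw [Finset.mem_Icc] at hu
  rw [Finset.mem_Ico]
  refine ⟨hu.1, ?_⟩
  have h1 : N < (N / M + 1) * M := by
    have := Nat.div_add_mod N M
    have h2 := Nat.mod_lt N hMpos
    nlinarith
  omega

lemma count_le_real (A : Finset ℕ) (hA : ∀ p ∈ A, p.Prime) (a : ℕ → ℕ) (N : ℕ) :
    (((Finset.Icc 1 N).filter fun u => ∀ p ∈ A, ¬ (u ≡ a p [MOD p])).card : ℝ) ≤
      N * ∏ p ∈ A, (1 - 1 / (p : ℝ)) + (∏ p ∈ A, p : ℕ) := by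
  have h := count_le A hA a N
  set M := ∏ p ∈ A, p with hM
  have hMpos : 0 < M := Finset.prod_pos fun p hp => (hA p hp).pos
  have hMR : (0 : ℝ) < M := by exact_mod_cast hMpos
  have h1 : ((∏ p ∈ A, (p - 1) : ℕ) : ℝ) = M * ∏ p ∈ A, (1 - 1 / (p : ℝ)) := by
    rw [hM]
    push_cast
    rw [← Finset.prod_mul_distrib]
    refine Finset.prod_congr rfl fun p hp => ?_
    have hp := (hA p hp)
    have hp0 : (p : ℝ) ≠ 0 := by exact_mod_cast hp.ne_zero
    rw [Nat.cast_sub hp.one_le]
    field_simp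
    simp
  have hprod : 0 ≤ ∏ p ∈ A, (1 - 1 / (p : ℝ)) ∧ ∏ p ∈ A, (1 - 1 / (p : ℝ)) ≤ 1 := by
    have hb : ∀ p ∈ A, 0 ≤ 1 - 1 / (p : ℝ) ∧ 1 - 1 / (p : ℝ) ≤ 1 := by
      intro p hp
      have h2 : (1 : ℝ) ≤ p := by exact_mod_cast (hA p hp).one_le
      have h3 : 1 / (p : ℝ) ≤ 1 := by rw [div_le_one (by linarith)]; exact h2
      have h4 : 0 ≤ 1 / (p : ℝ) := by positivity
      constructor <;> linarith
    exact ⟨Finset.prod_nonneg fun p hp => (hb p hp).1,
      Finset.prod_le_one (fun p hp => (hb p hp).1) fun p hp => (hb p hp).2⟩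
  have h2 : (((Finset.Icc 1 N).filter fun u => ∀ p ∈ A, ¬ (u ≡ a p [MOD p])).card : ℝ) ≤
      ((N / M : ℕ) + 1) * (M * ∏ p ∈ A, (1 - 1 / (p : ℝ))) := by
    rw [← h1]
    exact_mod_cast h
  refine h2.trans ?_
  have h3 : ((N / M : ℕ) : ℝ) ≤ N / M := Nat.cast_div_le
  have h4 : ((N / M : ℕ) : ℝ) * M ≤ N := by
    rw [le_div_iff₀ hMR] at h3
    exact h3
  calc (((N / M : ℕ) : ℝ) + 1) * (M * ∏ p ∈ A, (1 - 1 / (p : ℝ)))
      = (((N / M : ℕ) : ℝ) * M) * ∏ p ∈ A, (1 - 1 / (p : ℝ)) +
        M * ∏ p ∈ A, (1 - 1 / (p : ℝ)) := by ring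
    _ ≤ N * ∏ p ∈ A, (1 - 1 / (p : ℝ)) + M * 1 := by
        gcongr
        · exact hprod.1
        · exact hprod.2
    _ = _ := by rw [mul_one]

/-- consecutive blocks of primes with small products -/
lemma exists_blocks (S : Set ℕ) (hS : ∀ p ∈ S, p.Prime)
    (hns : ¬ Summable (S.indicator fun n : ℕ => 1 / (n : ℝ))) (ε : ℝ) (hε : 0 < ε) :
    ∃ A : ℕ → Finset ℕ, (∀ i, ∀ p ∈ A i, p ∈ S) ∧ (∀ i j, i ≠ j → Disjoint (A i) (A j)) ∧
      ∀ i, ∏ p ∈ A i, (1 - 1 / (p : ℝ)) < ε := by
  classical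
  set f : ℕ → ℝ := S.indicator fun n : ℕ => 1 / (n : ℝ) with hf
  have hf0 : ∀ n, 0 ≤ f n := fun n => Set.indicator_nonneg (fun _ _ => by positivity) n
  have htend := (not_summable_iff_tendsto_nat_atTop_of_nonneg hf0).mp hns
  have hstep : ∀ a : ℕ, ∃ b : ℕ, a < b ∧ 1 - Real.log ε ≤ ∑ n ∈ Finset.Ico a b, f n := by
    intro a
    obtain ⟨b, hb, hab⟩ := ((htend.eventually_ge_atTop
      (1 - Real.log ε + ∑ n ∈ Finset.range a, f n)).and (eventually_gt_atTop a)).exists
    refine ⟨b, hab, ?_⟩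
    have h1 := Finset.sum_range_add_sum_Ico f hab.le
    linarith
  choose g hg1 hg2 using hstep
  let L : ℕ → ℕ := fun n => g^[n] 0
  have hL : ∀ i, L (i + 1) = g (L i) := fun i => Function.iterate_succ_apply' g i 0
  have hLmono : StrictMono L := strictMono_nat_of_lt_succ fun i => by rw [hL]; exact hg1 _
  refine ⟨fun i => (Finset.Ico (L i) (L (i + 1))).filter (· ∈ S), fun i p hp =>
    (Finset.mem_filter.mp hp).2, ?_, ?_⟩
  · have hlt : ∀ i j, i < j → Disjoint ((Finset.Ico (L i) (L (i + 1))).filter (· ∈ S))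
        ((Finset.Ico (L j) (L (j + 1))).filter (· ∈ S)) := by
      intro i j hij
      refine Finset.disjoint_left.mpr fun p hp hq => ?_
      rw [Finset.mem_filter, Finset.mem_Ico] at hp hq
      have : L (i + 1) ≤ L j := hLmono.monotone hij
      omega
    intro i j hij
    rcases lt_or_gt_of_ne hij with h | h
    · exact hlt i j h
    · exact (hlt j i h).symm
  · intro i
    have hsum : 1 - Real.log ε ≤
        ∑ p ∈ (Finset.Ico (L i) (L (i + 1))).filter (· ∈ S), 1 / (p : ℝ) := by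
      rw [Finset.sum_filter]
      have h1 := hg2 (L i)
      rw [← hL] at h1
      refine h1.trans (le_of_eq ?_)
      refine Finset.sum_congr rfl fun n _ => ?_
      rw [hf, Set.indicator_apply]
    have hle : ∏ p ∈ (Finset.Ico (L i) (L (i + 1))).filter (· ∈ S), (1 - 1 / (p : ℝ)) ≤
        Real.exp (- ∑ p ∈ (Finset.Ico (L i) (L (i + 1))).filter (· ∈ S), 1 / (p : ℝ)) := by
      rw [← Finset.sum_neg_distrib, Real.exp_sum]
      refine Finset.prod_le_prod (fun p hp => ?_) fun p hp => ?_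
      · have hp' := hS p (Finset.mem_filter.mp hp).2
        have h2 : (1 : ℝ) ≤ p := by exact_mod_cast hp'.one_le
        have h3 : 1 / (p : ℝ) ≤ 1 := by rw [div_le_one (by linarith)]; exact h2
        linarith
      · have := Real.add_one_le_exp (-(1 / (p : ℝ)))
        linarith
    refine lt_of_le_of_lt hle ?_
    have : Real.exp (- ∑ p ∈ (Finset.Ico (L i) (L (i + 1))).filter (· ∈ S), 1 / (p : ℝ)) ≤
        Real.exp (Real.log ε - 1) := Real.exp_le_exp.mpr (by linarith)
    refine lt_of_le_of_lt this ?_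
    calc Real.exp (Real.log ε - 1) < Real.exp (Real.log ε) := Real.exp_lt_exp.mpr (by linarith)
      _ = ε := Real.exp_log hε

/-- almost all values have many prime factors -/
theorem sparse (q : ℕ → ℕ → ℕ) (hq : ∀ u v, 0 < u → 0 < v → q u v ≠ 0)
    (S : Set ℕ) (hS : ∀ p ∈ S, p.Prime)
    (hns : ¬ Summable (S.indicator fun n : ℕ => 1 / (n : ℝ)))
    (hroot : ∀ p ∈ S, ∃ r : ℕ, ∀ u v : ℕ, u ≡ r * v [MOD p] → p ∣ q u v) (K : ℕ) :
    ∀ᶠ N : ℕ in atTop,
      4 * ((box N).filter fun x => cardFactors (q x.1 x.2) ≤ K).card ≤ N ^ 2 := by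
  classical
  set ε : ℝ := 1 / (8 * (K + 1)) with hε
  have hεpos : 0 < ε := by positivity
  obtain ⟨A, hAS, hAdisj, hAε⟩ := exists_blocks S hS hns ε hεpos
  choose! r hr using hroot
  set B : ℕ := ∑ i ∈ Finset.range (K + 1), ∏ p ∈ A i, p with hB
  filter_upwards [eventually_ge_atTop (8 * B)] with N hN
  have hprime : ∀ i, ∀ p ∈ A i, p.Prime := fun i p hp => hS p (hAS i p hp)
  -- covering
  have hcov : ((box N).filter fun x => cardFactors (q x.1 x.2) ≤ K) ⊆
      (Finset.range (K + 1)).biUnion fun i =>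
        (Finset.Icc 1 N).biUnion fun v =>
          ((Finset.Icc 1 N).filter fun u => ∀ p ∈ A i, ¬ (u ≡ r p * v [MOD p])).map
            ⟨fun u => (u, v), fun a b h => (Prod.ext_iff.mp h).1⟩ := by
    rintro ⟨u, v⟩ hx
    rw [Finset.mem_filter, box, Finset.mem_product] at hx
    obtain ⟨⟨hu, hv⟩, hK⟩ := hx
    simp only at hu hv hK
    by_contra hcon
    simp only [Finset.mem_biUnion, Finset.mem_range, Finset.mem_map, Finset.mem_filter,
      Function.Embedding.coeFn_mk, not_exists, not_and] at hcon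
    have hex : ∀ i ∈ Finset.range (K + 1), ∃ p ∈ A i, p ∣ q u v := by
      intro i hi
      by_contra hno
      push Not at hno
      refine hcon i (Finset.mem_range.mp hi) v hv u ⟨hu, fun p hp hmod => ?_⟩ rfl
      exact hno p hp (hr p (hAS i p hp) u v hmod)
    choose! π hπ1 hπ2 using hex
    have hq0 : q u v ≠ 0 := hq u v (Finset.mem_Icc.mp hu).1 (Finset.mem_Icc.mp hv).1
    have hinj : Set.InjOn π (Finset.range (K + 1)) := by
      intro i hi j hj hij
      by_contra hne
      have h1 := hπ1 i hi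
      have h2 := hπ1 j hj
      rw [hij] at h1
      exact Finset.disjoint_left.mp (hAdisj i j hne) h1 h2
    have hsub : (Finset.range (K + 1)).image π ⊆ (q u v).primeFactors := by
      intro p hp
      rw [Finset.mem_image] at hp
      obtain ⟨i, hi, rfl⟩ := hp
      exact Nat.mem_primeFactors.mpr ⟨hprime i _ (hπ1 i hi), hπ2 i hi, hq0⟩
    have hcard := Finset.card_le_card hsub
    rw [Finset.card_image_of_injOn hinj, Finset.card_range] at hcard
    have h3 : (q u v).primeFactors.card ≤ cardFactors (q u v) := by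
      rw [ArithmeticFunction.cardFactors_apply, Nat.primeFactors]
      exact List.toFinset_card_le _
    omega
  have hcardR : (((box N).filter fun x => cardFactors (q x.1 x.2) ≤ K).card : ℝ) ≤
      ∑ i ∈ Finset.range (K + 1), (N : ℝ) * (N * ε + (∏ p ∈ A i, p : ℕ)) := by
    have h1 : ((box N).filter fun x => cardFactors (q x.1 x.2) ≤ K).card ≤
        ∑ i ∈ Finset.range (K + 1), ∑ v ∈ Finset.Icc 1 N,
          ((Finset.Icc 1 N).filter fun u => ∀ p ∈ A i, ¬ (u ≡ r p * v [MOD p])).card := by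
      refine (Finset.card_le_card hcov).trans (Finset.card_biUnion_le.trans ?_)
      refine Finset.sum_le_sum fun i _ => Finset.card_biUnion_le.trans ?_
      refine Finset.sum_le_sum fun v _ => ?_
      rw [Finset.card_map]
    have h2 : (((box N).filter fun x => cardFactors (q x.1 x.2) ≤ K).card : ℝ) ≤
        ∑ i ∈ Finset.range (K + 1), ∑ v ∈ Finset.Icc 1 N,
          (((Finset.Icc 1 N).filter fun u => ∀ p ∈ A i, ¬ (u ≡ r p * v [MOD p])).card : ℝ) := by
      exact_mod_cast h1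
    refine h2.trans (Finset.sum_le_sum fun i _ => ?_)
    have h3 : ∀ v ∈ Finset.Icc 1 N,
        (((Finset.Icc 1 N).filter fun u => ∀ p ∈ A i, ¬ (u ≡ r p * v [MOD p])).card : ℝ) ≤
          N * ε + (∏ p ∈ A i, p : ℕ) := by
      intro v _
      refine (count_le_real (A i) (hprime i) (fun p => r p * v) N).trans ?_
      have h4 := (hAε i).le
      gcongr
    refine (Finset.sum_le_sum h3).trans (le_of_eq ?_)
    rw [Finset.sum_const, Nat.card_Icc, nsmul_eq_mul]
    simp
  have hBR : (8 : ℝ) * B ≤ N := by exact_mod_cast hN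
  have hfin : ∑ i ∈ Finset.range (K + 1), (N : ℝ) * (N * ε + (∏ p ∈ A i, p : ℕ)) ≤
      (N : ℝ) ^ 2 / 4 := by
    rw [← Finset.mul_sum, Finset.sum_add_distrib, Finset.sum_const, Finset.card_range,
      nsmul_eq_mul]
    have h5 : (((∑ i ∈ Finset.range (K + 1), ∏ p ∈ A i, p : ℕ)) : ℝ) = B := by rw [hB]
    have h6 : ∑ i ∈ Finset.range (K + 1), (((∏ p ∈ A i, p : ℕ)) : ℝ) = B := by
      rw [← h5]; push_cast; rfl
    rw [h6]
    have h7 : ((K + 1 : ℕ) : ℝ) * (N * ε) = N / 8 := by
      rw [hε]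
      push_cast
      have : (K : ℝ) + 1 ≠ 0 := by positivity
      field_simp
    rw [h7]
    have hN0 : (0 : ℝ) ≤ N := Nat.cast_nonneg N
    nlinarith
  have hlast : (4 : ℝ) * (((box N).filter fun x => cardFactors (q x.1 x.2) ≤ K).card : ℝ) ≤
      (N : ℝ) ^ 2 := by linarith [hcardR.trans hfin]
  exact_mod_cast hlast

end Pool.Agent.H256R3.OM
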