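import Mathlib

/-! A uniquely ergodic system whose `k`-th power is not uniquely ergodic: sequences in `ZMod k` that
increase by one at each step, except at sparse defects. -/

set_option autoImplicit false

open MeasureTheory Filter Topology Set

namespace Pool.Agent.H256R3.OM

/-- sequences in `ZMod k` whose defects (places where the next term is not the successor) are
sparse: if `i < j` are defects then `2 i < j`. -/
def sysSet (k : ℕ) : Set (ℕ → ZMod k) :=
  {y | ∀ i j : ℕ, i < j → j ≤ 2 * i → y (i + 1) = y i + 1 ∨ y (j + 1) = y j + 1}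

/-- the shift -/
def shift {k : ℕ} (y : sysSet k) : sysSet k :=
  ⟨fun i => y.1 (i + 1), fun i j hij hji => y.2 (i + 1) (j + 1) (by omega) (by omega)⟩

lemma shift_iterate {k : ℕ} (y : sysSet k) (n i : ℕ) : ((shift^[n]) y).1 i = y.1 (i + n) := by
  induction n generalizing y i with
  | zero => rfl
  | succ n ih =>
    rw [Function.iterate_succ_apply, ih]
    show y.1 (i + n + 1) = y.1 (i + (n + 1))
    rfl

lemma continuous_coord {k : ℕ} (i : ℕ) : Continuous fun y : sysSet k => y.1 i :=
  (continuous_apply i).comp continuous_subtype_val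

lemma continuous_shift {k : ℕ} : Continuous (shift : sysSet k → sysSet k) := by
  apply Continuous.subtype_mk
  exact continuous_pi fun i => continuous_coord (i + 1)

lemma isClosed_sysSet (k : ℕ) : IsClosed (sysSet k) := by
  have : sysSet k = ⋂ i : ℕ, ⋂ j : ℕ, ⋂ (_ : i < j), ⋂ (_ : j ≤ 2 * i),
      ({y : ℕ → ZMod k | y (i + 1) = y i + 1} ∪ {y | y (j + 1) = y j + 1}) := by
    ext y
    simp [sysSet]
  rw [this]
  refine isClosed_iInter fun i => isClosed_iInter fun j => isClosed_iInter fun _ =>
    isClosed_iInter fun _ => IsClosed.union ?_ ?_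
  · exact isClosed_eq (continuous_apply _) ((continuous_apply _).add continuous_const)
  · exact isClosed_eq (continuous_apply _) ((continuous_apply _).add continuous_const)

instance (k : ℕ) [NeZero k] : CompactSpace (sysSet k) :=
  isCompact_iff_compactSpace.mp (isClosed_sysSet k).isCompact

/-- the periodic points -/
def per {k : ℕ} (a : ZMod k) : sysSet k :=
  ⟨fun i => a + i, fun i j _ _ => Or.inl (by push_cast; ring)⟩

lemma shift_per {k : ℕ} (a : ZMod k) : shift (per a) = per (a + 1) := by
  apply Subtype.ext
  funext i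
  show a + ((i + 1 : ℕ) : ZMod k) = a + 1 + (i : ZMod k)
  push_cast
  ring

lemma per_injective {k : ℕ} : Function.Injective (per : ZMod k → sysSet k) := by
  intro a b h
  have := congrArg (fun y : sysSet k => y.1 0) h
  simpa [per] using this

/-- the set of points with a defect at `i` -/
def dset (k i : ℕ) : Set (sysSet k) := {y | y.1 (i + 1) ≠ y.1 i + 1}

lemma shift_preimage_dset (k i : ℕ) : shift ⁻¹' (dset k i) = dset k (i + 1) := rfl

lemma isOpen_dset (k i : ℕ) : IsOpen (dset k i) := by
  have : dset k i = {y : sysSet k | y.1 (i + 1) = y.1 i + 1}ᶜ := rfl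
  rw [this, isOpen_compl_iff]
  exact isClosed_eq (continuous_coord _) ((continuous_coord _).add continuous_const)

lemma mem_per_of_no_defect {k : ℕ} (y : sysSet k) (h : ∀ i, y ∉ dset k i) :
    y = per (y.1 0) := by
  apply Subtype.ext
  funext i
  show y.1 i = y.1 0 + (i : ZMod k)
  induction i with
  | zero => simp
  | succ i ih =>
    have h1 : y.1 (i + 1) = y.1 i + 1 := by
      by_contra hne
      exact h i hne
    rw [h1, ih]
    push_cast
    ring

section measure

variable {k : ℕ} [NeZero k] [MeasurableSpace (sysSet k)] [BorelSpace (sysSet k)]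

lemma measure_dset (μ : Measure (sysSet k)) [IsProbabilityMeasure μ]
    (hμ : MeasurePreserving shift μ μ) (i : ℕ) : μ (dset k i) = μ (dset k 0) := by
  induction i with
  | zero => rfl
  | succ i ih =>
    rw [← shift_preimage_dset, hμ.measure_preimage (isOpen_dset k i).measurableSet.nullMeasurableSet,
      ih]

lemma measure_dset_zero (μ : Measure (sysSet k)) [IsProbabilityMeasure μ]
    (hμ : MeasurePreserving shift μ μ) (i : ℕ) : μ (dset k i) = 0 := by
  rw [measure_dset μ hμ i]
  have key : ∀ m : ℕ, (m + 1 : ℕ) * μ (dset k 0) ≤ 1 := by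
    intro m
    have hdisj : (↑(Finset.Icc m (2 * m)) : Set ℕ).PairwiseDisjoint (fun i => dset k i) := by
      intro i hi j hj hij
      simp only [Finset.coe_Icc, Set.mem_Icc] at hi hj
      refine Set.disjoint_left.mpr fun y hyi hyj => ?_
      rcases lt_or_gt_of_ne hij with h | h
      · rcases y.2 i j h (by omega) with h1 | h1
        · exact hyi h1
        · exact hyj h1
      · rcases y.2 j i h (by omega) with h1 | h1
        · exact hyj h1
        · exact hyi h1
    have h1 := measure_biUnion_finset hdisj (μ := μ)
      (fun i _ => (isOpen_dset k i).measurableSet)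
    have h2 : μ (⋃ i ∈ Finset.Icc m (2 * m), dset k i) ≤ 1 := prob_le_one
    rw [h1] at h2
    rw [Finset.sum_congr rfl fun i _ => measure_dset μ hμ i, Finset.sum_const, Nat.card_Icc,
      nsmul_eq_mul] at h2
    have e : 2 * m + 1 - m = m + 1 := by omega
    rwa [e] at h2
  by_contra hne
  have hpos : 0 < μ (dset k 0) := pos_iff_ne_zero.mpr hne
  have hfin : μ (dset k 0) ≠ ⊤ := measure_ne_top _ _
  obtain ⟨n, hn⟩ := ENNReal.exists_nat_mul_gt hne (b := 1) ENNReal.one_ne_top
  have := key n
  have h3 : (n : ENNReal) * μ (dset k 0) ≤ (n + 1 : ℕ) * μ (dset k 0) := by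
    gcongr
    exact Nat.le_succ n
  exact absurd (lt_of_lt_of_le hn (h3.trans this)) (lt_irrefl _)

/-- almost every point is periodic -/
lemma measure_compl_per (μ : Measure (sysSet k)) [IsProbabilityMeasure μ]
    (hμ : MeasurePreserving shift μ μ) : μ (range (per : ZMod k → sysSet k))ᶜ = 0 := by
  have hsub : (range (per : ZMod k → sysSet k))ᶜ ⊆ ⋃ i, dset k i := by
    intro y hy
    by_contra hcon
    rw [Set.mem_iUnion, not_exists] at hcon
    exact hy ⟨_, (mem_per_of_no_defect y hcon).symm⟩
  refine measure_mono_null hsub ?_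
  rw [measure_iUnion_null_iff]
  exact fun i => measure_dset_zero μ hμ i

lemma measure_inter_per (μ : Measure (sysSet k)) [IsProbabilityMeasure μ]
    (hμ : MeasurePreserving shift μ μ) (A : Set (sysSet k)) :
    μ A = μ (A ∩ range (per : ZMod k → sysSet k)) := by
  refine (measure_eq_measure_of_null_diff Set.inter_subset_left ?_).symm
  refine measure_mono_null ?_ (measure_compl_per μ hμ)
  intro y hy
  intro hy2
  exact hy.2 ⟨hy.1, hy2⟩

lemma measure_per_succ (μ : Measure (sysSet k)) [IsProbabilityMeasure μ]
    (hμ : MeasurePreserving shift μ μ) (a : ZMod k) : μ {per (a + 1)} = μ {per a} := by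
  have h1 : μ (shift ⁻¹' {per (a + 1)}) = μ {per (a + 1)} :=
    hμ.measure_preimage (measurableSet_singleton _).nullMeasurableSet
  rw [← h1, measure_inter_per μ hμ (shift ⁻¹' {per (a + 1)})]
  congr 1
  ext y
  constructor
  · rintro ⟨hy, ⟨b, rfl⟩⟩
    have : shift (per b) = per (a + 1) := hy
    rw [shift_per] at this
    have := per_injective this
    have hb : b = a := by simpa using this
    rw [hb]; rfl
  · intro hy
    have hy' : y = per a := hy
    subst hy'
    exact ⟨shift_per a, a, rfl⟩

lemma measure_per (μ : Measure (sysSet k)) [IsProbabilityMeasure μ]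
    (hμ : MeasurePreserving shift μ μ) (a : ZMod k) : μ {per a} = μ {per (0 : ZMod k)} := by
  have : ∀ n : ℕ, μ {per (n : ZMod k)} = μ {per (0 : ZMod k)} := by
    intro n
    induction n with
    | zero => simp
    | succ n ih =>
      rw [← ih, ← measure_per_succ μ hμ (n : ZMod k)]
      push_cast
      rfl
  have h := this a.val
  rwa [ZMod.natCast_zmod_val] at h

open Classical in
lemma measure_eq_card (μ : Measure (sysSet k)) [IsProbabilityMeasure μ]
    (hμ : MeasurePreserving shift μ μ) (A : Set (sysSet k)) :
    μ A = (Finset.univ.filter fun a : ZMod k => per a ∈ A).card * μ {per (0 : ZMod k)} := by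
  rw [measure_inter_per μ hμ A]
  have hA : A ∩ range (per : ZMod k → sysSet k) =
      ⋃ a ∈ (Finset.univ.filter fun a : ZMod k => per a ∈ A), {per a} := by
    ext y
    simp only [Set.mem_inter_iff, Set.mem_range, Finset.mem_filter, Finset.mem_univ, true_and,
      Set.mem_iUnion, Set.mem_singleton_iff, exists_prop]
    constructor
    · rintro ⟨hy, a, rfl⟩
      exact ⟨a, hy, rfl⟩
    · rintro ⟨a, ha, rfl⟩
      exact ⟨ha, a, rfl⟩
  rw [hA, measure_biUnion_finset]
  · rw [Finset.sum_congr rfl fun a _ => measure_per μ hμ a, Finset.sum_const, nsmul_eq_mul]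
  · intro a _ b _ hab
    exact Set.disjoint_singleton.mpr fun h => hab (per_injective h)
  · exact fun a _ => measurableSet_singleton _

lemma measure_per_zero (μ : Measure (sysSet k)) [IsProbabilityMeasure μ]
    (hμ : MeasurePreserving shift μ μ) : (k : ENNReal) * μ {per (0 : ZMod k)} = 1 := by
  have h := measure_eq_card μ hμ Set.univ
  rw [measure_univ] at h
  simp only [Set.mem_univ, Finset.filter_true, Finset.card_univ, ZMod.card] at h
  exact h.symm

/-- uniqueness of the invariant measure -/
theorem unique_measure (μ ν : Measure (sysSet k)) [IsProbabilityMeasure μ] [IsProbabilityMeasure ν]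
    (hμ : MeasurePreserving shift μ μ) (hν : MeasurePreserving shift ν ν) : μ = ν := by
  have h0 : μ {per (0 : ZMod k)} = ν {per (0 : ZMod k)} := by
    have h1 := measure_per_zero μ hμ
    have h2 := measure_per_zero ν hν
    have hk : (k : ENNReal) ≠ 0 := by exact_mod_cast NeZero.ne k
    have hk' : (k : ENNReal) ≠ ⊤ := ENNReal.natCast_ne_top k
    exact (ENNReal.mul_right_inj hk hk').mp (h1.trans h2.symm)
  ext A _
  rw [measure_eq_card μ hμ A, measure_eq_card ν hν A, h0]

variable (k) in
/-- the invariant measure -/
noncomputable def invMeasure : Measure (sysSet k) :=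
  (k : ENNReal)⁻¹ • ∑ a : ZMod k, Measure.dirac (per a)

instance : IsProbabilityMeasure (invMeasure k) := by
  constructor
  rw [invMeasure, Measure.smul_apply, Measure.finset_sum_apply]
  simp only [measure_univ, Finset.sum_const, Finset.card_univ, ZMod.card, nsmul_eq_mul, mul_one,
    smul_eq_mul]
  exact ENNReal.inv_mul_cancel (by exact_mod_cast NeZero.ne k) (ENNReal.natCast_ne_top k)

theorem invMeasure_preserving : MeasurePreserving shift (invMeasure k) (invMeasure k) := by
  have hm : Measurable (shift : sysSet k → sysSet k) := continuous_shift.measurable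
  refine ⟨hm, ?_⟩
  ext A hA
  rw [Measure.map_apply hm hA, invMeasure, Measure.smul_apply, Measure.smul_apply,
    Measure.finset_sum_apply, Measure.finset_sum_apply]
  congr 1
  rw [← Equiv.sum_comp (Equiv.addRight (1 : ZMod k)) fun a => (Measure.dirac (per a)) A]
  refine Finset.sum_congr rfl fun a _ => ?_
  rw [Measure.dirac_apply' _ (hm hA), Measure.dirac_apply' _ hA]
  simp only [Equiv.coe_addRight]
  rw [← shift_per a]
  rfl

theorem existsUnique_measure :
    ∃! μ : Measure (sysSet k), IsProbabilityMeasure μ ∧ MeasurePreserving shift μ μ := by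
  refine ⟨invMeasure k, ⟨inferInstance, invMeasure_preserving⟩, ?_⟩
  rintro ν ⟨h1, h2⟩
  exact unique_measure ν (invMeasure k) h2 invMeasure_preserving

end measure

end Pool.Agent.H256R3.OM
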